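import Pool.Agent.W361.LQ.Defs

/-!
# Project LQ: `Phi` determines the point
-/

set_option autoImplicit false

namespace Pool.Agent.W168.LQ

open Pool.Agent.W361.LQ

theorem nrm {t : ℝ} (h : |t| ≤ 1 / 2) : ‖(t : UnitAddCircle)‖ = |t| :=
  (AddCircle.norm_coe_eq_abs_iff (p := (1 : ℝ)) (x := t) one_ne_zero).2 (by simpa using h)

theorem coe_one' : ((1 : ℝ) : UnitAddCircle) = 0 := AddCircle.coe_period (p := (1 : ℝ))

theorem half {x : ℝ} (h0 : 0 ≤ x) (h1 : x ≤ 1 / 2)
    (h : ‖((x + 1 / 4 : ℝ) : UnitAddCircle)‖ = ‖((-x + 1 / 4 : ℝ) : UnitAddCircle)‖) :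
    x = 0 ∨ x = 1 / 2 := by
  have e2 : ‖((-x + 1 / 4 : ℝ) : UnitAddCircle)‖ = |-x + 1 / 4| :=
    nrm (by rw [abs_le]; constructor <;> linarith)
  rcases le_total x (1 / 4) with hx | hx
  · left
    rw [e2, nrm (by rw [abs_le]; constructor <;> linarith), abs_of_nonneg (by linarith),
      abs_of_nonneg (by linarith)] at h
    linarith
  · right
    have e1 : ((x + 1 / 4 : ℝ) : UnitAddCircle) = ((x + 1 / 4 - 1 : ℝ) : UnitAddCircle) := by
      rw [AddCircle.coe_sub, coe_one', sub_zero]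
    rw [e2, e1, nrm (by rw [abs_le]; constructor <;> linarith), abs_of_nonpos (by linarith),
      abs_of_nonpos (by linarith)] at h
    linarith

theorem same {x : ℝ} (h1 : x = 0 ∨ x = 1 / 2) :
    (x : UnitAddCircle) = ((-x : ℝ) : UnitAddCircle) := by
  rcases h1 with rfl | rfl
  · simp
  · have : (((1 / 2 : ℝ)) : UnitAddCircle) = ((-(1 / 2) + 1 : ℝ) : UnitAddCircle) := by norm_num
    rw [this, AddCircle.coe_add, coe_one', add_zero]

theorem key {u v : UnitAddCircle} (h1 : ‖u‖ = ‖v‖)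
    (h2 : ‖u + ((1 / 4 : ℝ) : UnitAddCircle)‖ = ‖v + ((1 / 4 : ℝ) : UnitAddCircle)‖) : u = v := by
  obtain ⟨x, rfl, hx⟩ := lift u
  obtain ⟨y, rfl, hy⟩ := lift v
  have h3 := norm_circle_le (x : UnitAddCircle)
  rw [← hx, ← hy] at h1
  rw [← hx] at h3
  rcases abs_eq_abs.1 h1 with h | h
  · rw [h]
  · subst h
    rw [← AddCircle.coe_add, ← AddCircle.coe_add] at h2
    rcases le_total 0 y with h0 | h0
    · have h4 := half (x := y) h0 (by rwa [abs_neg, abs_of_nonneg h0] at h3) h2.symm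
      exact (same h4).symm
    · have h4 := half (x := -y) (by linarith) (by rwa [abs_neg, abs_of_nonpos h0] at h3)
        (by rw [neg_neg]; exact h2)
      have h5 := same h4
      rw [neg_neg] at h5
      exact h5

theorem co_inj {r s : ℝ} {w v : UnitAddCircle} (h : co r w = co s v) : r = s ∧ (r ≠ 0 → w = v) := by
  unfold co at h
  simp only [Prod.mk.injEq] at h
  obtain ⟨h1, h2, h3⟩ := h
  subst h1
  exact ⟨rfl, fun hr => key (mul_left_cancel₀ hr h2) (mul_left_cancel₀ hr h3)⟩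

theorem main : ∀ a b : Pm, Phi a = Phi b →
    a.1 = b.1 ∧ ∀ n, a.2.1 n = b.2.1 n ∧ (a.2.1 n ≠ 0 → a.2.2 n = b.2.2 n) := by
  intro a b h
  have hc : ∀ i, crd a i = crd b i := fun i => by
    rw [← Phi_apply, ← Phi_apply, h]
  constructor
  · have h0 := hc 0
    unfold crd at h0
    rw [if_pos rfl, if_pos rfl] at h0
    exact (co_inj h0).2 one_ne_zero
  · intro n
    have h1 := hc (n + 1)
    unfold crd at h1
    rw [if_neg (Nat.succ_ne_zero n), if_neg (Nat.succ_ne_zero n), Nat.add_sub_cancel] at h1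
    have h2 : ((1 / 2 : ℝ) ^ (n + 1)) ≠ 0 := by positivity
    have h3 := smul_right_injective (ℝ × ℝ × ℝ) h2 h1
    obtain ⟨h4, h5⟩ := co_inj h3
    refine ⟨Subtype.ext h4, fun h6 => h5 fun h7 => h6 (Subtype.ext h7)⟩

end Pool.Agent.W168.LQ
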